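import Mathlib

/-!
MP_308823_co, Q2.  The rational Ehrhart numerator of the cyclic block polytope `C_3^{(1)}` is
`1 + 4z + 7z^2 + 7z^3 + 4z^4 + z^5`, which is not gamma-nonnegative.
-/

set_option autoImplicit false

namespace Pool.Agent.Results.MP_308823_co.NotGammaNonneg

open scoped Pointwise

/-! ### Definitions -/

/-- The cyclic block polytope `C_m^{(a)}`: `x ≥ 0` and `R_i + R_{i+1} ≤ 1` for all `i` modulo `m`,
where `R_i = x_{i,1} + … + x_{i,a}` (`finRotate m` is the map `i ↦ i + 1` modulo `m`). -/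
def cyclicBlock (m a : ℕ) : Set (Fin m → Fin a → ℝ) :=
  {x | (∀ i j, 0 ≤ x i j) ∧ ∀ i, ∑ j, x i j + ∑ j, x (finRotate m i) j ≤ 1}

/-- `L(q)`, the number of integer points of the dilate `q C_m^{(a)}` -/
noncomputable def L (m a q : ℕ) : ℕ :=
  Set.ncard {x : Fin m → Fin a → ℤ | (fun i j => ((x i j : ℤ) : ℝ)) ∈ (q : ℝ) • cyclicBlock m a}

/-- the rational Ehrhart numerator `h_{m,a}(z) = (1 - z^2)^{am+1} ∑_q L(q) z^q`, as a power series -/
noncomputable def hnum (m a : ℕ) : PowerSeries ℤ :=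
  (1 - PowerSeries.X ^ 2) ^ (a * m + 1) * PowerSeries.mk (fun q => ((L m a q : ℕ) : ℤ))

/-- `f` is gamma-nonnegative: `f = ∑_j γ_j z^j (1+z)^{N-2j}` for some `N` and `γ_j ≥ 0` (for a
polynomial `f` with nonzero constant term, `N` is necessarily its degree) -/
def GammaNonneg (f : PowerSeries ℤ) : Prop :=
  ∃ (N : ℕ) (γ : ℕ → ℝ), (∀ j, 0 ≤ γ j) ∧
    f.map (Int.castRingHom ℝ) = ∑ j ∈ Finset.range (N / 2 + 1),
      PowerSeries.C (γ j) * PowerSeries.X ^ j * (1 + PowerSeries.X) ^ (N - 2 * j)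

/-! ### Lattice points of `q C_3^{(1)}` -/

theorem mem_dilate (q : ℕ) (x : Fin 3 → Fin 1 → ℝ) : x ∈ (q : ℝ) • cyclicBlock 3 1 ↔
    (0 ≤ x 0 0 ∧ 0 ≤ x 1 0 ∧ 0 ≤ x 2 0) ∧ x 0 0 + x 1 0 ≤ q ∧ x 1 0 + x 2 0 ≤ q ∧
      x 2 0 + x 0 0 ≤ q := by
  have r0 : finRotate 3 0 = 1 := by decide
  have r1 : finRotate 3 1 = 2 := by decide
  have r2 : finRotate 3 2 = 0 := by decide
  have hC : ∀ y : Fin 3 → Fin 1 → ℝ, y ∈ cyclicBlock 3 1 ↔
      (0 ≤ y 0 0 ∧ 0 ≤ y 1 0 ∧ 0 ≤ y 2 0) ∧ y 0 0 + y 1 0 ≤ 1 ∧ y 1 0 + y 2 0 ≤ 1 ∧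
      y 2 0 + y 0 0 ≤ 1 := by
    intro y
    simp only [cyclicBlock, Set.mem_ofPred_eq, Fin.forall_fin_succ, Fin.sum_univ_succ,
      Fin.forall_fin_zero, Finset.univ_eq_empty, Finset.sum_empty, add_zero, and_true]
    constructor
    · rintro ⟨⟨h0, h1, h2⟩, k0, k1, k2⟩
      exact ⟨⟨h0, h1, h2⟩, k0, k1, k2⟩
    · rintro ⟨⟨h0, h1, h2⟩, k0, k1, k2⟩
      exact ⟨⟨h0, h1, h2⟩, k0, k1, k2⟩
  rcases Nat.eq_zero_or_pos q with hq | hq
  · subst hq
    constructor
    · rintro ⟨y, _, rfl⟩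
      simp
    · rintro ⟨⟨h0, h1, h2⟩, k0, k1, k2⟩
      refine ⟨fun _ _ => 0, (hC _).2 (by norm_num), ?_⟩
      push_cast at k0 k1 k2
      funext i j
      have hj : j = 0 := Subsingleton.elim _ _
      subst hj
      change ((0 : ℕ) : ℝ) * 0 = x i 0
      rw [mul_zero]
      fin_cases i
      · change 0 = x 0 0; linarith
      · change 0 = x 1 0; linarith
      · change 0 = x 2 0; linarith
  · have hqr : (0 : ℝ) < q := by exact_mod_cast hq
    rw [Set.mem_smul_set_iff_inv_smul_mem₀ hqr.ne', hC]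
    have e : ∀ i j, ((q : ℝ)⁻¹ • x) i j = x i j / q := fun i j => by
      simp [div_eq_inv_mul]
    simp only [e]
    rw [← add_div, ← add_div, ← add_div, div_le_one hqr, div_le_one hqr, div_le_one hqr]
    have hdiv : ∀ y : ℝ, 0 ≤ y / q ↔ 0 ≤ y := by
      intro y
      constructor
      · intro h
        have := mul_nonneg h hqr.le
        rwa [div_mul_cancel₀ _ hqr.ne'] at this
      · intro h; positivity
    rw [hdiv, hdiv, hdiv]

/-- triples of natural numbers with pairwise sums at most `q` -/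
def F (q : ℕ) : Finset (ℕ × ℕ × ℕ) :=
  (Finset.range (q + 1) ×ˢ Finset.range (q + 1) ×ˢ Finset.range (q + 1)).filter
    fun p => p.1 + p.2.1 ≤ q ∧ p.2.1 + p.2.2 ≤ q ∧ p.2.2 + p.1 ≤ q

theorem mem_F (q x y z : ℕ) : (x, y, z) ∈ F q ↔ x + y ≤ q ∧ y + z ≤ q ∧ z + x ≤ q := by
  simp only [F, Finset.mem_filter, Finset.mem_product, Finset.mem_range]
  omega

theorem L_eq (q : ℕ) : L 3 1 q = (F q).card := by
  have hset : {x : Fin 3 → Fin 1 → ℤ | (fun i j => ((x i j : ℤ) : ℝ)) ∈ (q : ℝ) • cyclicBlock 3 1}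
      = (fun p : ℕ × ℕ × ℕ => (![fun _ => (p.1 : ℤ), fun _ => (p.2.1 : ℤ), fun _ => (p.2.2 : ℤ)] :
        Fin 3 → Fin 1 → ℤ)) '' (F q : Set (ℕ × ℕ × ℕ)) := by
    ext x
    rw [Set.mem_ofPred_eq, mem_dilate]
    constructor
    · rintro ⟨⟨h0, h1, h2⟩, k0, k1, k2⟩
      have h0' : 0 ≤ x 0 0 := by exact_mod_cast h0
      have h1' : 0 ≤ x 1 0 := by exact_mod_cast h1
      have h2' : 0 ≤ x 2 0 := by exact_mod_cast h2
      have k0' : x 0 0 + x 1 0 ≤ q := by exact_mod_cast k0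
      have k1' : x 1 0 + x 2 0 ≤ q := by exact_mod_cast k1
      have k2' : x 2 0 + x 0 0 ≤ q := by exact_mod_cast k2
      obtain ⟨a, ha⟩ := Int.eq_ofNat_of_zero_le h0'
      obtain ⟨b, hb⟩ := Int.eq_ofNat_of_zero_le h1'
      obtain ⟨c, hc⟩ := Int.eq_ofNat_of_zero_le h2'
      refine ⟨(a, b, c), ?_, ?_⟩
      · rw [Finset.mem_coe, mem_F]
        omega
      · funext i j
        have hj : j = 0 := Subsingleton.elim _ _
        subst hj
        fin_cases i
        · exact ha.symm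
        · exact hb.symm
        · exact hc.symm
    · rintro ⟨⟨a, b, c⟩, hp, rfl⟩
      rw [Finset.mem_coe, mem_F] at hp
      obtain ⟨p0, p1, p2⟩ := hp
      change (0 ≤ (((a : ℕ) : ℤ) : ℝ) ∧ 0 ≤ (((b : ℕ) : ℤ) : ℝ) ∧ 0 ≤ (((c : ℕ) : ℤ) : ℝ)) ∧
        (((a : ℕ) : ℤ) : ℝ) + (((b : ℕ) : ℤ) : ℝ) ≤ q ∧
        (((b : ℕ) : ℤ) : ℝ) + (((c : ℕ) : ℤ) : ℝ) ≤ q ∧
        (((c : ℕ) : ℤ) : ℝ) + (((a : ℕ) : ℤ) : ℝ) ≤ q
      refine ⟨⟨by positivity, by positivity, by positivity⟩, ?_, ?_, ?_⟩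
      · exact_mod_cast p0
      · exact_mod_cast p1
      · exact_mod_cast p2
  unfold L
  rw [hset, Set.ncard_image_of_injective, Set.ncard_coe_finset]
  rintro ⟨a, b, c⟩ ⟨a', b', c'⟩ h
  have h0 : (a : ℤ) = a' := congrFun (congrFun h 0) 0
  have h1 : (b : ℤ) = b' := congrFun (congrFun h 1) 0
  have h2 : (c : ℤ) = c' := congrFun (congrFun h 2) 0
  have e0 : a = a' := by exact_mod_cast h0
  have e1 : b = b' := by exact_mod_cast h1
  have e2 : c = c' := by exact_mod_cast h2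
  rw [e0, e1, e2]

/-- pairs of natural numbers with sum at most `n` -/
def G (n : ℕ) : Finset (ℕ × ℕ) :=
  (Finset.range (n + 1) ×ˢ Finset.range (n + 1)).filter fun p => p.1 + p.2 ≤ n

theorem mem_G (n x y : ℕ) : (x, y) ∈ G n ↔ x + y ≤ n := by
  simp only [G, Finset.mem_filter, Finset.mem_product, Finset.mem_range]
  omega

theorem card_G (n : ℕ) : 2 * (G n).card = (n + 1) * (n + 2) := by
  induction n with
  | zero => decide
  | succ n ih =>
    have h : G (n + 1) = (G n).image (fun p => (p.1 + 1, p.2)) ∪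
        (Finset.range (n + 2)).image (fun y => ((0, y) : ℕ × ℕ)) := by
      ext ⟨x, y⟩
      simp only [Finset.mem_union, Finset.mem_image, mem_G, Prod.exists, Prod.mk.injEq,
        Finset.mem_range]
      constructor
      · intro h
        rcases Nat.eq_zero_or_pos x with hx | hx
        · right; exact ⟨y, by omega, hx.symm, rfl⟩
        · left; exact ⟨x - 1, y, by omega, by omega, rfl⟩
      · rintro (⟨a, b, h, h1, h2⟩ | ⟨a, h, h1, h2⟩) <;> omega
    rw [h, Finset.card_union_of_disjoint, Finset.card_image_of_injective,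
      Finset.card_image_of_injective, Finset.card_range, mul_add, ih]
    · ring
    · intro a b hab
      simpa using hab
    · rintro ⟨a, b⟩ ⟨c, d⟩ hab
      simpa using hab
    · rw [Finset.disjoint_left]
      rintro ⟨x, y⟩ h1 h2
      simp only [Finset.mem_image, Prod.mk.injEq, Prod.exists] at h1 h2
      obtain ⟨a, b, _, h3, _⟩ := h1
      obtain ⟨c, _, h4, _⟩ := h2
      omega

theorem card_F_rec (q : ℕ) :
    (F (q + 2)).card = (F q).card + (G (q + 2)).card + (G (q + 1)).card + (G q).card := by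
  have h : F (q + 2) = (((F q).image (fun p => (p.1 + 1, p.2.1 + 1, p.2.2 + 1)) ∪
      (G (q + 2)).image (fun p => (0, p.1, p.2))) ∪
      (G (q + 1)).image (fun p => (p.1 + 1, 0, p.2))) ∪
      (G q).image (fun p => (p.1 + 1, p.2 + 1, 0)) := by
    ext ⟨x, y, z⟩
    simp only [Finset.mem_union, Finset.mem_image, mem_G, mem_F, Prod.exists, Prod.mk.injEq]
    constructor
    · intro h
      rcases Nat.eq_zero_or_pos x with hx | hx
      · left; left; right
        exact ⟨y, z, by omega, hx.symm, rfl, rfl⟩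
      · rcases Nat.eq_zero_or_pos y with hy | hy
        · left; right
          exact ⟨x - 1, z, by omega, by omega, hy.symm, rfl⟩
        · rcases Nat.eq_zero_or_pos z with hz | hz
          · right
            exact ⟨x - 1, y - 1, by omega, by omega, by omega, hz.symm⟩
          · left; left; left
            exact ⟨x - 1, y - 1, z - 1, by omega, by omega, by omega, by omega⟩
    · rintro (((⟨a, b, c, h, h1, h2, h3⟩ | ⟨a, b, h, h1, h2, h3⟩) | ⟨a, b, h, h1, h2, h3⟩) |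
        ⟨a, b, h, h1, h2, h3⟩) <;> omega
  have i1 : Function.Injective (fun p : ℕ × ℕ × ℕ => (p.1 + 1, p.2.1 + 1, p.2.2 + 1)) := by
    rintro ⟨a, b, c⟩ ⟨a', b', c'⟩ h
    simpa using h
  have i2 : Function.Injective (fun p : ℕ × ℕ => ((0, p.1, p.2) : ℕ × ℕ × ℕ)) := by
    rintro ⟨a, b⟩ ⟨a', b'⟩ h
    simpa using h
  have i3 : Function.Injective (fun p : ℕ × ℕ => ((p.1 + 1, 0, p.2) : ℕ × ℕ × ℕ)) := by
    rintro ⟨a, b⟩ ⟨a', b'⟩ h
    simpa using h
  have i4 : Function.Injective (fun p : ℕ × ℕ => ((p.1 + 1, p.2 + 1, 0) : ℕ × ℕ × ℕ)) := by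
    rintro ⟨a, b⟩ ⟨a', b'⟩ h
    simpa using h
  rw [h, Finset.card_union_of_disjoint, Finset.card_union_of_disjoint,
    Finset.card_union_of_disjoint, Finset.card_image_of_injective _ i1,
    Finset.card_image_of_injective _ i2, Finset.card_image_of_injective _ i3,
    Finset.card_image_of_injective _ i4]
  · rw [Finset.disjoint_left]
    rintro ⟨x, y, z⟩ h1 h2
    simp only [Finset.mem_image, Prod.mk.injEq, Prod.exists] at h1 h2
    obtain ⟨a, b, c, _, h3, _⟩ := h1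
    obtain ⟨d, _, _, h4, _⟩ := h2
    omega
  · rw [Finset.disjoint_left]
    rintro ⟨x, y, z⟩ h1 h2
    simp only [Finset.mem_union, Finset.mem_image, Prod.mk.injEq, Prod.exists] at h1 h2
    obtain ⟨d, _, _, h4, h5, _⟩ := h2
    rcases h1 with ⟨a, b, c, _, h3, h6, _⟩ | ⟨a, b, _, h3, _⟩
    · omega
    · omega
  · rw [Finset.disjoint_left]
    rintro ⟨x, y, z⟩ h1 h2
    simp only [Finset.mem_union, Finset.mem_image, Prod.mk.injEq, Prod.exists] at h1 h2
    obtain ⟨d, e, _, h4, h5, h7⟩ := h2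
    rcases h1 with (⟨a, b, c, _, h3, h6, h8⟩ | ⟨a, b, _, h3, _⟩) | ⟨a, b, _, h3, h6, _⟩
    · omega
    · omega
    · omega

/-- the recursion for the number of lattice points -/
theorem L_rec (q : ℕ) : 2 * (L 3 1 (q + 2) : ℤ) = 2 * L 3 1 q + 3 * q ^ 2 + 15 * q + 20 := by
  rw [L_eq, L_eq]
  have h := card_F_rec q
  have g2 := card_G (q + 2)
  have g1 := card_G (q + 1)
  have g0 := card_G q
  zify at h g2 g1 g0
  rw [h]
  linear_combination g2 + g1 + g0

theorem L_zero : L 3 1 0 = 1 := by rw [L_eq]; decide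
theorem L_one : L 3 1 1 = 4 := by rw [L_eq]; decide

/-! ### The numerator -/

open PowerSeries in
theorem one_sub_mul (a : ℕ → ℤ) :
    (1 - X : PowerSeries ℤ) * PowerSeries.mk a = C (a 0) + X * PowerSeries.mk (fun n => a (n + 1) - a n) := by
  ext n
  rw [sub_mul, one_mul, map_sub, coeff_mk, map_add, coeff_C]
  cases n with
  | zero => simp [coeff_zero_X_mul]
  | succ n =>
    rw [coeff_succ_X_mul, coeff_succ_X_mul, coeff_mk, coeff_mk]
    simp

open PowerSeries in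
theorem one_sub_sq_mul (a : ℕ → ℤ) :
    (1 - X ^ 2 : PowerSeries ℤ) * PowerSeries.mk a = C (a 0) + X * C (a 1) +
      X * (X * PowerSeries.mk (fun n => a (n + 2) - a n)) := by
  have e : (1 - X ^ 2 : PowerSeries ℤ) * PowerSeries.mk a
      = PowerSeries.mk a - X * (X * PowerSeries.mk a) := by ring
  rw [e]
  ext n
  rw [map_sub, coeff_mk, map_add, map_add, coeff_C]
  rcases n with _ | _ | n
  · simp [coeff_zero_X_mul]
  · rw [coeff_succ_X_mul, coeff_succ_X_mul, coeff_succ_X_mul]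
    simp [coeff_zero_X_mul]
  · rw [coeff_succ_X_mul, coeff_succ_X_mul, coeff_succ_X_mul, coeff_succ_X_mul, coeff_succ_X_mul,
      coeff_mk, coeff_mk, coeff_C]
    simp

open PowerSeries in
/-- `h_{3,1}(z) = 1 + 4z + 7z^2 + 7z^3 + 4z^4 + z^5` -/
theorem hnum_eq : hnum 3 1 = 1 + 4 * X + 7 * X ^ 2 + 7 * X ^ 3 + 4 * X ^ 4 + X ^ 5 := by
  obtain ⟨a, ha⟩ : ∃ a : ℕ → ℤ, a = fun q => ((L 3 1 q : ℕ) : ℤ) := ⟨_, rfl⟩
  have a0 : a 0 = 1 := by rw [ha]; simp [L_zero]
  have a1 : a 1 = 4 := by rw [ha]; simp [L_one]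
  have arec : ∀ q : ℕ, 2 * (a (q + 2) - a q) = 3 * (q : ℤ) ^ 2 + 15 * q + 20 := by
    intro q
    have := L_rec q
    rw [ha]
    linear_combination this
  obtain ⟨b, hb⟩ : ∃ b : ℕ → ℤ, b = fun n => a (n + 2) - a n := ⟨_, rfl⟩
  have hb' : ∀ q : ℕ, 2 * b q = 3 * (q : ℤ) ^ 2 + 15 * q + 20 := fun q => by rw [hb]; exact arec q
  have b0 : b 0 = 10 := by have := hb' 0; push_cast at this; omega
  have b1 : b 1 = 19 := by have := hb' 1; push_cast at this; omega
  have b2 : b 2 = 31 := by have := hb' 2; push_cast at this; omega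
  have hser : (1 - X : PowerSeries ℤ) ^ 3 * PowerSeries.mk b = 10 - 11 * X + 4 * X ^ 2 := by
    have s1 := one_sub_mul b
    have s2 := one_sub_mul (fun n => b (n + 1) - b n)
    have s3 := one_sub_mul (fun n => b (n + 1 + 1) - b (n + 1) - (b (n + 1) - b n))
    have hz : PowerSeries.mk (fun n => b (n + 1 + 1 + 1) - b (n + 1 + 1) - (b (n + 1 + 1) - b (n + 1))
        - (b (n + 1 + 1) - b (n + 1) - (b (n + 1) - b n))) = (0 : PowerSeries ℤ) := by
      ext n
      rw [coeff_mk, map_zero]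
      have e0 := hb' n
      have e1 := hb' (n + 1)
      have e2 := hb' (n + 1 + 1)
      have e3 := hb' (n + 1 + 1 + 1)
      push_cast at e0 e1 e2 e3
      linarith
    rw [hz, mul_zero, add_zero] at s3
    have c0 : (C (b 0) : PowerSeries ℤ) = 10 := by rw [b0]; rfl
    have c1 : (C (b (0 + 1) - b 0) : PowerSeries ℤ) = 9 := by rw [zero_add, b1, b0]; rfl
    have c2 : (C (b (0 + 1 + 1) - b (0 + 1) - (b (0 + 1) - b 0)) : PowerSeries ℤ) = 3 := by
      rw [zero_add, b1, b0]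
      change (C (b 2 - 19 - (19 - 10)) : PowerSeries ℤ) = 3
      rw [b2]; rfl
    rw [c2] at s3
    rw [c1] at s2
    rw [c0] at s1
    calc (1 - X : PowerSeries ℤ) ^ 3 * PowerSeries.mk b
        = (1 - X) * ((1 - X) * ((1 - X) * PowerSeries.mk b)) := by ring
      _ = (1 - X) * ((1 - X) * 10 + X * ((1 - X) * PowerSeries.mk (fun n => b (n + 1) - b n))) := by
          rw [s1]; ring
      _ = (1 - X) * (1 - X) * 10 + X * ((1 - X) * 9 + X * ((1 - X) *
          PowerSeries.mk (fun n => b (n + 1 + 1) - b (n + 1) - (b (n + 1) - b n)))) := by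
          rw [s2]; ring
      _ = 10 - 11 * X + 4 * X ^ 2 := by rw [s3]; ring
  have t := one_sub_sq_mul a
  rw [a0, a1] at t
  have cc1 : (C (1 : ℤ) : PowerSeries ℤ) = 1 := rfl
  have cc4 : (C (4 : ℤ) : PowerSeries ℤ) = 4 := rfl
  rw [cc1, cc4] at t
  have hb2 : (fun n => a (n + 2) - a n) = b := hb.symm
  rw [hb2] at t
  unfold hnum
  rw [← ha]
  calc (1 - X ^ 2 : PowerSeries ℤ) ^ (1 * 3 + 1) * PowerSeries.mk a
      = (1 - X ^ 2) ^ 3 * ((1 - X ^ 2) * PowerSeries.mk a) := by ring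
    _ = (1 - X ^ 2) ^ 3 * (1 + 4 * X) + X ^ 2 * (1 + X) ^ 3 * ((1 - X) ^ 3 * PowerSeries.mk b) := by
        rw [t]; ring
    _ = 1 + 4 * X + 7 * X ^ 2 + 7 * X ^ 3 + 4 * X ^ 4 + X ^ 5 := by rw [hser]; ring

/-! ### Failure of gamma-nonnegativity -/

open PowerSeries in
theorem coeff_term (c : ℝ) (j k n : ℕ) :
    coeff n (C c * X ^ j * (1 + X) ^ k : PowerSeries ℝ)
      = if j ≤ n then c * (k.choose (n - j) : ℝ) else 0 := by
  rw [mul_assoc, coeff_C_mul, mul_comm (X ^ j : PowerSeries ℝ), coeff_mul_X_pow']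
  split_ifs with h
  · have e : ((1 + X : PowerSeries ℝ) ^ k) = (((1 + Polynomial.X : Polynomial ℝ) ^ k : Polynomial ℝ) :
        PowerSeries ℝ) := by
      rw [Polynomial.coe_pow, Polynomial.coe_add, Polynomial.coe_one, Polynomial.coe_X]
    rw [e, Polynomial.coeff_coe, Polynomial.coeff_one_add_X_pow]
  · rw [mul_zero]

open PowerSeries in
theorem not_gamma : ¬ GammaNonneg (hnum 3 1) := by
  rintro ⟨N, γ, hγ, h⟩
  rw [hnum_eq] at h
  have hc : ∀ n : ℕ, coeff n ((1 + 4 * X + 7 * X ^ 2 + 7 * X ^ 3 + 4 * X ^ 4 + X ^ 5 :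
      PowerSeries ℤ).map (Int.castRingHom ℝ)) = ∑ j ∈ Finset.range (N / 2 + 1),
        if j ≤ n then γ j * ((N - 2 * j).choose (n - j) : ℝ) else 0 := by
    intro n
    rw [h, map_sum]
    exact Finset.sum_congr rfl fun j _ => coeff_term _ _ _ _
  have hmap : (1 + 4 * X + 7 * X ^ 2 + 7 * X ^ 3 + 4 * X ^ 4 + X ^ 5 :
      PowerSeries ℤ).map (Int.castRingHom ℝ)
      = (1 + Polynomial.C 4 * Polynomial.X + Polynomial.C 7 * Polynomial.X ^ 2 +
        Polynomial.C 7 * Polynomial.X ^ 3 + Polynomial.C 4 * Polynomial.X ^ 4 +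
        Polynomial.X ^ 5 : Polynomial ℝ) := by
    simp only [map_add, map_mul, map_pow, map_one, map_ofNat, map_X, Polynomial.coe_add,
      Polynomial.coe_mul, Polynomial.coe_pow, Polynomial.coe_X, Polynomial.coe_one,
      Polynomial.coe_C]
    have e4 : (4 : PowerSeries ℝ) = ((4 : Polynomial ℝ) : PowerSeries ℝ) := by
      rw [← map_ofNat (Polynomial.C (R := ℝ)) 4, Polynomial.coe_C, map_ofNat]
    have e7 : (7 : PowerSeries ℝ) = ((7 : Polynomial ℝ) : PowerSeries ℝ) := by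
      rw [← map_ofNat (Polynomial.C (R := ℝ)) 7, Polynomial.coe_C, map_ofNat]
    rw [← e4, ← e7]
  have k0 := hc 0
  have k1 := hc 1
  have k3 := hc 3
  rw [hmap] at k0 k1 k3
  simp only [Polynomial.coeff_coe, Polynomial.coeff_add, Polynomial.coeff_one,
    Polynomial.coeff_C_mul, Polynomial.coeff_X, Polynomial.coeff_X_pow] at k0 k1 k3
  norm_num at k0 k1 k3
  -- constant term
  have g0 : γ 0 = 1 := k0.symm
  by_cases hN : 5 ≤ N
  · -- coefficient of z
    have : (4 : ℝ) ≥ N := by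
      rw [k1, Finset.sum_range_succ']
      have hnn : 0 ≤ ∑ k ∈ Finset.range (N / 2), (if k + 1 ≤ 1 then γ (k + 1) *
          ((N - 2 * (k + 1)).choose (1 - (k + 1)) : ℝ) else 0) := by
        refine Finset.sum_nonneg fun k _ => ?_
        split_ifs
        · exact mul_nonneg (hγ _) (by positivity)
        · exact le_rfl
      have hz : (if 0 ≤ 1 then γ 0 * ((N - 2 * 0).choose (1 - 0) : ℝ) else 0) = N := by
        rw [if_pos (by norm_num), g0]
        simp
      rw [hz]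
      linarith
    have h5 : (5 : ℝ) ≤ N := by exact_mod_cast hN
    linarith
  · have hN' : N ≤ 4 := by omega
    interval_cases N
    · norm_num [Finset.sum_range_succ, Nat.choose] at k1
    · norm_num [Finset.sum_range_succ, g0, Nat.choose] at k3
    · norm_num [Finset.sum_range_succ, g0, Nat.choose] at k3
    · norm_num [Finset.sum_range_succ, g0, Nat.choose] at k3
    · norm_num [Finset.sum_range_succ, g0, Nat.choose] at k1 k3
      linarith

/-- **Negative answer to Q2.**  For `a = 1`, `m = 3` the rational Ehrhart numerator is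
`1 + 4z + 7z^2 + 7z^3 + 4z^4 + z^5`, and it is not gamma-nonnegative; so it is not true that
`h_{m,a}` is gamma-nonnegative for all `a ≥ 1` and all odd `m ≥ 3`. -/
theorem result :
    (hnum 3 1 = 1 + 4 * PowerSeries.X + 7 * PowerSeries.X ^ 2 + 7 * PowerSeries.X ^ 3 +
      4 * PowerSeries.X ^ 4 + PowerSeries.X ^ 5) ∧
    ¬ GammaNonneg (hnum 3 1) ∧
    ¬ ∀ a m : ℕ, 1 ≤ a → 3 ≤ m → Odd m → GammaNonneg (hnum m a) :=
  ⟨hnum_eq, not_gamma, fun h => not_gamma (h 1 3 le_rfl le_rfl (by decide))⟩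

end Pool.Agent.Results.MP_308823_co.NotGammaNonneg
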